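import Mathlib
import Pool.Agent.H165R2.F5.Main

/-! MP_1dc4d0_co: two perfect matchings whose intersection contains no odd edge cut, for cubic graphs with a 2-factor
with at most four odd circuits. -/
set_option autoImplicit false

namespace Pool.Agent.Results.MP_1dc4d0_co.FourOddCircuits

/-- the spanning graph formed by the edges outside `M` (for a perfect matching `M` of a cubic graph: the complementary
2-factor, a digon of parallel edges being a single adjacency). -/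
abbrev offGraph {V E : Type} (ends : E → Sym2 V) (M : Set E) : SimpleGraph V := H165R2.F5.offGraph ends M

/-- `offGraph` in plain terms. -/
theorem offGraph_adj {V E : Type} (ends : E → Sym2 V) (M : Set E) (p q : V) :
    (offGraph ends M).Adj p q ↔ p ≠ q ∧ ∃ e, e ∉ M ∧ p ∈ ends e ∧ q ∈ ends e := Iff.rfl

theorem result :
    ∀ (V E : Type) [Fintype V] [Fintype E] (ends : E → Sym2 V),
      (∀ e : E, ∃ x y : V, x ≠ y ∧ x ∈ ends e ∧ y ∈ ends e) →
      (∀ v : V, {e : E | v ∈ ends e}.ncard = 3) →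
      (∀ (S : Set V) (b : E),
        ¬ (∀ e : E, (∃ x y : V, x ∈ ends e ∧ y ∈ ends e ∧ x ∈ S ∧ y ∉ S) ↔ e = b)) →
      ∀ M₁ : Set E, (∀ v : V, ∃! e : E, e ∈ M₁ ∧ v ∈ ends e) →
      (offGraph ends M₁).oddComponents.ncard ≤ 4 →
      ∀ e₀ : E, ∃ M₂ : Set E, e₀ ∈ M₂ ∧
        (∀ v : V, ∃! e : E, e ∈ M₂ ∧ v ∈ ends e) ∧
        ∀ S : Set V,
          Odd {e : E | ∃ x y : V, x ∈ ends e ∧ y ∈ ends e ∧ x ∈ S ∧ y ∉ S}.ncard →
          ¬ (∀ e : E, (∃ x y : V, x ∈ ends e ∧ y ∈ ends e ∧ x ∈ S ∧ y ∉ S) →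
              e ∈ M₁ ∧ e ∈ M₂) :=
  H165R2.F5.T_F1 H165R2.F5.jn

end Pool.Agent.Results.MP_1dc4d0_co.FourOddCircuits
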